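import Pool.Agent.Helper83.TW.Goals2

/-!
# MP_39e2b7_an, packet TW-GCal: calibration of the leaves
-/

set_option autoImplicit false

namespace Pool.Agent.Helper45.TW

open Complex Set Filter Topology Pool.Agent.Helper83.TW

theorem mem_DG {ρ x d : ℝ} (hρ : 0 < ρ) (h1 : 1/4 < d) (h2 : d < 11/4) :
    ((x:ℂ), (d:ℂ)) ∈ DG (ρ/2) := by
  refine ⟨?_, ?_, ?_, ?_⟩
  · simpa using hρ
  · simpa using h1
  · simpa using h2
  · simpa using hρ

theorem mem_WG {ρ x Y : ℝ} (hρ : 0 < ρ) (h1 : 1/16 < Y) (h2 : Y < 47/16) :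
    ((x:ℂ), (Y:ℂ)) ∈ WG ρ := by
  refine ⟨?_, ?_, ?_, ?_⟩
  · simpa using hρ
  · simpa using h1
  · simpa using h2
  · simpa using hρ

theorem ell_re (g : ℂ × ℂ → ℂ) (x d : ℝ) :
    (ell g (x:ℂ) (d:ℂ)).re = d ^ 2 / 2 + (g ((x:ℂ), (d:ℂ))).re := by
  unfold ell
  rw [add_re]
  congr 1
  have : ((d:ℂ) ^ 2 / 2) = ((d ^ 2 / 2 : ℝ) : ℂ) := by push_cast; ring
  rw [this, ofReal_re]

variable {P Q y g : ℂ × ℂ → ℂ} {c0 : ℂ} {ρ η : ℝ}

/-- the real momentum `Yr (x, d) = d + Re y (x, d)` -/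
noncomputable def Yr (y : ℂ × ℂ → ℂ) (x d : ℝ) : ℝ := d + (y ((x:ℂ), (d:ℂ))).re

theorem y_real (hρ : 0 < ρ) (hG : Gen P Q y g c0 ρ η) {x d : ℝ} (h1 : 1/4 < d) (h2 : d < 11/4) :
    y ((x:ℂ), (d:ℂ)) = ((y ((x:ℂ), (d:ℂ))).re : ℂ) := by
  have h := hG.yH.sym _ (mem_DG (x := x) hρ h1 h2)
  simp only [cj, conj_ofReal] at h
  exact (conj_eq_iff_real.mp h.symm).elim fun r hr => by rw [hr, ofReal_re]

theorem Yr_cast (hρ : 0 < ρ) (hG : Gen P Q y g c0 ρ η) {x d : ℝ} (h1 : 1/4 < d)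
    (h2 : d < 11/4) : (d:ℂ) + y ((x:ℂ), (d:ℂ)) = ((Yr y x d : ℝ) : ℂ) := by
  rw [y_real hρ hG h1 h2]
  unfold Yr
  push_cast
  rfl

theorem Yr_bd (hρ : 0 < ρ) (hG : Gen P Q y g c0 ρ η) {x d : ℝ} (h1 : 1/4 < d)
    (h2 : d < 11/4) : |Yr y x d - d| ≤ η := by
  have h := hG.yb _ (mem_DG (x := x) hρ h1 h2)
  have h3 := abs_re_le_norm (y ((x:ℂ), (d:ℂ)))
  unfold Yr
  rw [add_sub_cancel_left]
  exact h3.trans h

theorem Gm_Yr (hρ : 0 < ρ) (hG : Gen P Q y g c0 ρ η) {x d : ℝ} (h1 : 1/4 < d)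
    (h2 : d < 11/4) : (Gm P Q x (Yr y x d)).1 = x + d := by
  have h := hG.ye _ (mem_DG (x := x) hρ h1 h2)
  simp only [] at h
  rw [Yr_cast hρ hG h1 h2] at h
  have h3 := congrArg Complex.re h
  rw [add_re, zero_re] at h3
  show x + Yr y x d + (P ((x:ℂ), ((Yr y x d : ℝ) : ℂ))).re = x + d
  have h4 : Yr y x d = d + (y ((x:ℂ), (d:ℂ))).re := rfl
  linarith

theorem D_eq {g : ℂ × ℂ → ℂ} {p : ℂ × ℂ} {f' : ℂ × ℂ →L[ℂ] ℂ} (h : HasFDerivAt g f' p) :
    D1 g p = f' (1, 0) ∧ D2 g p = f' (0, 1) := by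
  constructor
  · have h1 : HasDerivAt (fun z : ℂ => (z, p.2)) ((1 : ℂ), (0 : ℂ)) p.1 :=
      (hasDerivAt_id _).prodMk (hasDerivAt_const _ _)
    have h2 : HasFDerivAt g f' ((fun z : ℂ => (z, p.2)) p.1) := h
    exact (h2.comp_hasDerivAt p.1 h1).deriv
  · have h1 : HasDerivAt (fun z : ℂ => (p.1, z)) ((0 : ℂ), (1 : ℂ)) p.2 :=
      (hasDerivAt_const _ _).prodMk (hasDerivAt_id _)
    have h2 : HasFDerivAt g f' ((fun z : ℂ => (p.1, z)) p.2) := h
    exact (h2.comp_hasDerivAt p.2 h1).deriv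

/-- the action minus the area under the leaf -/
noncomputable def Phi (g : ℂ × ℂ → ℂ) (U : ℝ → ℝ) (x X : ℝ) : ℝ :=
  (ell g (x:ℂ) ((X - x : ℝ) : ℂ)).re - ∫ t in x..X, U t

theorem Phi_dX (hρ : 0 < ρ) (hG : Gen P Q y g c0 ρ η) {U : ℝ → ℝ} (hU : Continuous U) {x X : ℝ}
    (h1 : 1/4 < X - x) (h2 : X - x < 11/4) :
    HasDerivAt (fun X => Phi g U x X) ((Gm P Q x (Yr y x (X - x))).2 - U X) X := by
  have hmem := mem_DG (x := x) hρ h1 h2
  have hg : HasFDerivAt g (fderiv ℂ g ((x:ℂ), ((X - x : ℝ):ℂ))) ((x:ℂ), ((X - x : ℝ):ℂ)) :=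
    (hG.gd.differentiableAt ((isOpen_DG _).mem_nhds hmem)).hasFDerivAt
  have hD := (D_eq hg).2
  have hc : HasDerivAt (fun X : ℝ => ((x:ℂ), ((X - x : ℝ):ℂ))) ((0:ℂ), (1:ℂ)) X := by
    refine (hasDerivAt_const _ _).prodMk ?_
    have := ((hasDerivAt_id X).sub_const x).ofReal_comp
    simpa using this
  have h3 : HasDerivAt (fun X : ℝ => g ((x:ℂ), ((X - x : ℝ):ℂ)))
      (D2 g ((x:ℂ), ((X - x : ℝ):ℂ))) X := by
    have := (hg.restrictScalars ℝ).comp_hasDerivAt X hc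
    rw [hD]
    exact this
  have h4 : HasDerivAt (fun X : ℝ => (g ((x:ℂ), ((X - x : ℝ):ℂ))).re)
      (D2 g ((x:ℂ), ((X - x : ℝ):ℂ))).re X :=
    (reCLM.hasFDerivAt.comp_hasDerivAt X h3)
  have h5 : HasDerivAt (fun X : ℝ => (X - x) ^ 2 / 2) (X - x) X := by
    have := (((hasDerivAt_id X).sub_const x).pow 2).div_const 2
    refine this.congr_deriv ?_
    simp
  have h6 : HasDerivAt (fun X : ℝ => ∫ t in x..X, U t) (U X) X :=
    (hU.integral_hasStrictDerivAt x X).hasDerivAt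
  have h7 := (h5.add h4).sub h6
  have h8 : (fun X => Phi g U x X) = ((fun X : ℝ => (X - x) ^ 2 / 2) +
      (fun X : ℝ => (g ((x:ℂ), ((X - x : ℝ):ℂ))).re)) - (fun X : ℝ => ∫ t in x..X, U t) := by
    funext X
    unfold Phi
    rw [ell_re]
    rfl
  rw [h8]
  refine h7.congr_deriv ?_
  have h9 := hG.g2 _ hmem
  simp only [] at h9
  rw [h9, Yr_cast hρ hG h1 h2, add_re]
  show X - x + ((y ((x:ℂ), ((X - x : ℝ):ℂ))).re +
    (Q ((x:ℂ), ((Yr y x (X - x) : ℝ):ℂ))).re) - U X =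
      Yr y x (X - x) + (Q ((x:ℂ), ((Yr y x (X - x) : ℝ):ℂ))).re - U X
  have h10 : Yr y x (X - x) = (X - x) + (y ((x:ℂ), ((X - x : ℝ):ℂ))).re := rfl
  rw [h10]
  ring

theorem Phi_dx (hρ : 0 < ρ) (hG : Gen P Q y g c0 ρ η) {U : ℝ → ℝ} (hU : Continuous U) {x X : ℝ}
    (h1 : 1/4 < X - x) (h2 : X - x < 11/4) :
    HasDerivAt (fun x => Phi g U x X) (U x - Yr y x (X - x)) x := by
  have hmem := mem_DG (x := x) hρ h1 h2
  have hg : HasFDerivAt g (fderiv ℂ g ((x:ℂ), ((X - x : ℝ):ℂ))) ((x:ℂ), ((X - x : ℝ):ℂ)) :=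
    (hG.gd.differentiableAt ((isOpen_DG _).mem_nhds hmem)).hasFDerivAt
  have hD1 := (D_eq hg).1
  have hD2 := (D_eq hg).2
  have hc : HasDerivAt (fun x : ℝ => ((x:ℂ), ((X - x : ℝ):ℂ))) ((1:ℂ), (-1:ℂ)) x := by
    refine HasDerivAt.prodMk ?_ ?_
    · simpa using (hasDerivAt_id x).ofReal_comp
    · have := ((hasDerivAt_id x).const_sub X).ofReal_comp
      simpa using this
  have h3 : HasDerivAt (fun x : ℝ => g ((x:ℂ), ((X - x : ℝ):ℂ)))
      (D1 g ((x:ℂ), ((X - x : ℝ):ℂ)) - D2 g ((x:ℂ), ((X - x : ℝ):ℂ))) x := by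
    have := (hg.restrictScalars ℝ).comp_hasDerivAt x hc
    rw [hD1, hD2, ← map_sub]
    have e : ((1:ℂ), (0:ℂ)) - ((0:ℂ), (1:ℂ)) = ((1:ℂ), (-1:ℂ)) := by
      simp
    rw [e]
    exact this
  have h4 : HasDerivAt (fun x : ℝ => (g ((x:ℂ), ((X - x : ℝ):ℂ))).re)
      (D1 g ((x:ℂ), ((X - x : ℝ):ℂ)) - D2 g ((x:ℂ), ((X - x : ℝ):ℂ))).re x :=
    (reCLM.hasFDerivAt.comp_hasDerivAt x h3)
  have h5 : HasDerivAt (fun x : ℝ => (X - x) ^ 2 / 2) (-(X - x)) x := by
    have := (((hasDerivAt_id x).const_sub X).pow 2).div_const 2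
    refine this.congr_deriv ?_
    simp
    ring
  have h6 : HasDerivAt (fun x : ℝ => ∫ t in x..X, U t) (-(U x)) x := by
    have h := (hU.integral_hasStrictDerivAt X x).hasDerivAt.neg
    refine h.congr_of_eventuallyEq (Eventually.of_forall fun z => ?_)
    rw [Pi.neg_apply]
    exact intervalIntegral.integral_symm X z
  have h7 := (h5.add h4).sub h6
  have h8 : (fun x => Phi g U x X) = ((fun x : ℝ => (X - x) ^ 2 / 2) +
      (fun x : ℝ => (g ((x:ℂ), ((X - x : ℝ):ℂ))).re)) - (fun x : ℝ => ∫ t in x..X, U t) := by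
    funext x
    unfold Phi
    rw [ell_re]
    rfl
  rw [h8]
  refine h7.congr_deriv ?_
  have h9 := hG.g2 _ hmem
  have h10 := hG.g1 _ hmem
  simp only [] at h9 h10
  rw [h9, h10]
  have h11 : Q ((x:ℂ), ((X - x : ℝ):ℂ) + y ((x:ℂ), ((X - x : ℝ):ℂ))) -
      (y ((x:ℂ), ((X - x : ℝ):ℂ)) + Q ((x:ℂ), ((X - x : ℝ):ℂ) + y ((x:ℂ), ((X - x : ℝ):ℂ)))) =
      -y ((x:ℂ), ((X - x : ℝ):ℂ)) := by ring
  rw [h11, neg_re]
  have h12 : Yr y x (X - x) = (X - x) + (y ((x:ℂ), ((X - x : ℝ):ℂ))).re := rfl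
  rw [h12]
  ring

theorem gcal (hOsc : GOsc) : GCal := by
  intro P Q ρ η hN ι U hL y g c0 hG i hi
  have hρ := hN.hρ0
  have hη : η ≤ 1/4000000 := by
    have h1 := hN.hη
    have h2 := hN.hρ1
    norm_num at h1
    linarith
  have hη0 := hN.hη0
  obtain ⟨-, -, hgc, -, hord⟩ := hOsc P Q ρ η hN ι U hL
  have hUc := hL.cont i
  set γ : ℝ → ℝ := fun x => (Gm P Q x (U i x)).1 with hγ
  have hγc : Continuous γ := hgc i
  -- the increment of the leaf
  have hγd : ∀ x, |γ x - x - U i x| ≤ η := by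
    intro x
    have hb := hN.bP _ (mem_WG (x := x) (Y := U i x) hρ (by linarith [(hi x).1])
      (by linarith [(hi x).2]))
    have h3 := abs_re_le_norm (P ((x:ℂ), ((U i x : ℝ):ℂ)))
    have e : γ x - x - U i x = (P ((x:ℂ), ((U i x : ℝ):ℂ))).re := by
      show x + U i x + (P ((x:ℂ), ((U i x : ℝ):ℂ))).re - x - U i x = _
      ring
    rw [e]
    exact h3.trans hb
  have hγ1 : ∀ x, 39/100 < γ x - x := by
    intro x
    have h1 := (abs_le.mp (hγd x)).1
    linarith [(hi x).1]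
  have hγ2 : ∀ x, γ x - x < 261/100 := by
    intro x
    have h1 := (abs_le.mp (hγd x)).2
    linarith [(hi x).2]
  have hYg : ∀ x, Yr y x (γ x - x) = U i x := by
    intro x
    have e : γ x - x = U i x + (P ((x:ℂ), ((U i x : ℝ):ℂ))).re := by
      show x + U i x + (P ((x:ℂ), ((U i x : ℝ):ℂ))).re - x = _
      ring
    have h1 := hγ1 x
    have h2 := hγ2 x
    rw [e] at h1 h2
    have h3 := hG.yu x (U i x) (by linarith [(hi x).1]) (by linarith [(hi x).2])
      (by linarith) (by linarith)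
    unfold Yr
    rw [e, h3]
    ring
  -- sign of the derivative in `X`
  have hleaf : ∀ x d, 1/4 < d → d < 11/4 → ∃ j, U j x = Yr y x d ∧
      (Gm P Q x (Yr y x d)).2 = U j (x + d) := by
    intro x d h1 h2
    have hb := Yr_bd (x := x) hρ hG h1 h2
    obtain ⟨hb1, hb2⟩ := abs_le.mp hb
    obtain ⟨j, hj⟩ := hL.cover x (Yr y x d) (by linarith) (by linarith)
    refine ⟨j, hj, ?_⟩
    have := hL.inv j x
    rw [hj, Gm_Yr hρ hG h1 h2] at this
    exact this
  have hneg : ∀ x X, 1/4 < X - x → X < γ x → (Gm P Q x (Yr y x (X - x))).2 - U i X < 0 := by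
    intro x X h1 h2
    have h3 := hγ2 x
    obtain ⟨j, hj, hj2⟩ := hleaf x (X - x) h1 (by linarith)
    have h4 := hG.ymono x (X - x) (γ x - x) h1 (by linarith) (by linarith)
    have h5 : Yr y x (X - x) < U i x := by
      rw [← hYg x]
      exact h4
    have h6 := hord j i x (by rw [hj]; exact h5) X
    rw [hj2, add_sub_cancel]
    linarith
  have hpos : ∀ x X, γ x < X → X - x < 11/4 → 0 < (Gm P Q x (Yr y x (X - x))).2 - U i X := by
    intro x X h1 h2
    have h3 := hγ1 x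
    obtain ⟨j, hj, hj2⟩ := hleaf x (X - x) (by linarith) h2
    have h4 := hG.ymono x (γ x - x) (X - x) (by linarith) (by linarith) h2
    have h5 : U i x < Yr y x (X - x) := by
      rw [← hYg x]
      exact h4
    have h6 := hord i j x (by rw [hj]; exact h5) X
    rw [hj2, add_sub_cancel]
    linarith
  -- the minimum in `X`
  have hmin : ∀ x X, 1/4 < X - x → X - x < 11/4 → Phi g (U i) x (γ x) ≤ Phi g (U i) x X := by
    intro x X h1 h2
    have hg1 := hγ1 x
    have hg2 := hγ2 x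
    rcases le_total X (γ x) with hX | hX
    · have hd : ∀ z ∈ Icc X (γ x), HasDerivAt (fun X => Phi g (U i) x X)
          ((Gm P Q x (Yr y x (z - x))).2 - U i z) z := fun z hz =>
        Phi_dX hρ hG hUc (by linarith [hz.1]) (by linarith [hz.2])
      have hanti : AntitoneOn (fun X => Phi g (U i) x X) (Icc X (γ x)) := by
        apply antitoneOn_of_deriv_nonpos (convex_Icc _ _)
        · exact fun z hz => (hd z hz).continuousAt.continuousWithinAt
        · exact fun z hz => (hd z (interior_subset hz)).differentiableAt.differentiableWithinAt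
        · intro z hz
          rw [(hd z (interior_subset hz)).deriv]
          rw [interior_Icc] at hz
          exact (hneg x z (by linarith [hz.1]) hz.2).le
      exact hanti ⟨le_rfl, hX⟩ ⟨hX, le_rfl⟩ hX
    · have hd : ∀ z ∈ Icc (γ x) X, HasDerivAt (fun X => Phi g (U i) x X)
          ((Gm P Q x (Yr y x (z - x))).2 - U i z) z := fun z hz =>
        Phi_dX hρ hG hUc (by linarith [hz.1]) (by linarith [hz.2])
      have hmono : MonotoneOn (fun X => Phi g (U i) x X) (Icc (γ x) X) := by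
        apply monotoneOn_of_deriv_nonneg (convex_Icc _ _)
        · exact fun z hz => (hd z hz).continuousAt.continuousWithinAt
        · exact fun z hz => (hd z (interior_subset hz)).differentiableAt.differentiableWithinAt
        · intro z hz
          rw [(hd z (interior_subset hz)).deriv]
          rw [interior_Icc] at hz
          exact (hpos x z hz.1 (by linarith [hz.2])).le
      exact hmono ⟨le_rfl, hX⟩ ⟨hX, le_rfl⟩ hX
  -- continuity of the defect
  have hWc : ∀ x0, ContinuousAt (fun z : ℝ × ℝ => U i z.1 - Yr y z.1 (γ z.2 - z.1)) (x0, x0) := by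
    intro x0
    have hmem := mem_DG (x := x0) hρ (show 1/4 < γ x0 - x0 by linarith [hγ1 x0])
      (by linarith [hγ2 x0])
    have hyc : ContinuousAt y ((x0:ℂ), ((γ x0 - x0 : ℝ):ℂ)) :=
      (hG.yH.diff.differentiableAt ((isOpen_DG _).mem_nhds hmem)).continuousAt
    have hcc : Continuous (fun z : ℝ × ℝ => ((z.1:ℂ), ((γ z.2 - z.1 : ℝ):ℂ))) := by
      refine Continuous.prodMk ?_ ?_
      · exact continuous_ofReal.comp continuous_fst
      · exact continuous_ofReal.comp ((hγc.comp continuous_snd).sub continuous_fst)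
    have h1 : ContinuousAt (fun z : ℝ × ℝ => y ((z.1:ℂ), ((γ z.2 - z.1 : ℝ):ℂ))) (x0, x0) :=
      ContinuousAt.comp (f := fun z : ℝ × ℝ => ((z.1:ℂ), ((γ z.2 - z.1 : ℝ):ℂ)))
        (x := (x0, x0)) hyc hcc.continuousAt
    have h2 : ContinuousAt (fun z : ℝ × ℝ => (y ((z.1:ℂ), ((γ z.2 - z.1 : ℝ):ℂ))).re) (x0, x0) :=
      continuous_re.continuousAt.comp h1
    have h3 : ContinuousAt (fun z : ℝ × ℝ => γ z.2 - z.1) (x0, x0) :=
      ((hγc.comp continuous_snd).sub continuous_fst).continuousAt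
    exact (hUc.comp continuous_fst).continuousAt.sub (h3.add h2)
  -- the minimum value is constant
  have hder : ∀ x0, HasDerivAt (fun x => Phi g (U i) x (γ x)) 0 x0 := by
    intro x0
    rw [hasDerivAt_iff_isLittleO, Asymptotics.isLittleO_iff]
    intro ε hε
    have h0 : (fun z : ℝ × ℝ => U i z.1 - Yr y z.1 (γ z.2 - z.1)) (x0, x0) = 0 := by
      simp [hYg x0]
    have h1 : ∀ᶠ z : ℝ × ℝ in 𝓝 (x0, x0), ‖U i z.1 - Yr y z.1 (γ z.2 - z.1)‖ ≤ ε := by
      have h2 := (hWc x0).norm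
      have h3 : ‖(fun z : ℝ × ℝ => U i z.1 - Yr y z.1 (γ z.2 - z.1)) (x0, x0)‖ < ε := by
        rw [h0, norm_zero]; exact hε
      filter_upwards [h2.eventually (gt_mem_nhds h3)] with z hz using hz.le
    rw [Metric.eventually_nhds_iff] at h1
    obtain ⟨δ, hδ, hδ2⟩ := h1
    have hkey : ∀ x x', |x - x0| < min δ (1/20) → |x' - x0| < min δ (1/20) →
        Phi g (U i) x' (γ x') - Phi g (U i) x (γ x) ≤ ε * |x' - x| := by
      intro x x' hx hx'
      have hxδ := lt_of_lt_of_le hx (min_le_left _ _)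
      have hx1 := lt_of_lt_of_le hx (min_le_right _ _)
      have hx'1 := lt_of_lt_of_le hx' (min_le_right _ _)
      have hx2 := abs_lt.mp hx1
      have hx3 := abs_lt.mp hx'1
      have hg1 := hγ1 x
      have hg2 := hγ2 x
      have hball : ∀ z ∈ Metric.ball x0 (min δ (1/20)), HasDerivWithinAt
          (fun z => Phi g (U i) z (γ x)) (U i z - Yr y z (γ x - z))
          (Metric.ball x0 (min δ (1/20))) z := by
        intro z hz
        rw [Metric.mem_ball, Real.dist_eq] at hz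
        have hz1 := abs_lt.mp (lt_of_lt_of_le hz (min_le_right _ _))
        exact (Phi_dx hρ hG hUc (by linarith [hz1.1, hz1.2, hx2.1, hx2.2])
          (by linarith [hz1.1, hz1.2, hx2.1, hx2.2])).hasDerivWithinAt
      have hbd : ∀ z ∈ Metric.ball x0 (min δ (1/20)), ‖U i z - Yr y z (γ x - z)‖ ≤ ε := by
        intro z hz
        rw [Metric.mem_ball, Real.dist_eq] at hz
        have hzδ := lt_of_lt_of_le hz (min_le_left _ _)
        refine hδ2 (y := (z, x)) ?_
        rw [Prod.dist_eq, max_lt_iff]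
        exact ⟨by simpa [Real.dist_eq] using hzδ, by simpa [Real.dist_eq] using hxδ⟩
      have hmv := (convex_ball x0 (min δ (1/20))).norm_image_sub_le_of_norm_hasDerivWithin_le
        hball hbd (x := x) (y := x') (by simpa [Real.dist_eq] using hx)
        (by simpa [Real.dist_eq] using hx')
      have h5 := hmin x' (γ x) (by linarith) (by linarith)
      have h6 := le_abs_self (Phi g (U i) x' (γ x) - Phi g (U i) x (γ x))
      simp only [Real.norm_eq_abs] at hmv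
      linarith
    have hmin0 : 0 < min δ (1/20) := lt_min hδ (by norm_num)
    filter_upwards [Metric.ball_mem_nhds x0 hmin0] with x hx
    rw [Metric.mem_ball, Real.dist_eq] at hx
    have hx0 : |x0 - x0| < min δ (1/20) := by simpa using hmin0
    have k1 := hkey x0 x hx0 hx
    have k2 := hkey x x0 hx hx0
    rw [abs_sub_comm x0 x] at k2
    simp only [smul_zero, sub_zero, Real.norm_eq_abs]
    rw [abs_le]
    constructor <;> linarith
  have hconst : ∀ x x', Phi g (U i) x (γ x) = Phi g (U i) x' (γ x') := by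
    apply is_const_of_deriv_eq_zero (f := fun x => Phi g (U i) x (γ x))
    · exact fun x => (hder x).differentiableAt
    · exact fun x => (hder x).deriv
  refine ⟨Phi g (U i) 0 (γ 0), ?_, ?_⟩
  · intro x d h1 h2
    have := hmin x (x + d) (by linarith) (by linarith)
    rw [hconst x 0] at this
    refine this.trans (le_of_eq ?_)
    unfold Phi
    rw [add_sub_cancel_left]
  · intro x
    exact hconst x 0

end Pool.Agent.Helper45.TW
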